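import Pool.Agent.PLG.StmtsB

/-!
# Row BSG of squad PLG: the theorem of Balog, Szemeredi and Gowers
-/

set_option autoImplicit false

open scoped Pointwise

namespace Pool.Agent.PLG.H92

open Finset

/-- the difference set from the number of representations -/
theorem card_diff_le {α : Type} [DecidableEq α] [AddCommGroup α] (S D : Finset α) (c : ℝ)
    (h : ∀ d ∈ D, c ≤ (((S ×ˢ (S ×ˢ (S ×ˢ S))).filter
      (fun s => s.1 - s.2.1 + s.2.2.1 - s.2.2.2 = d)).card : ℝ)) :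
    (D.card : ℝ) * c ≤ (S.card : ℝ) ^ 4 := by
  have h1 : ∑ d ∈ D, ((S ×ˢ (S ×ˢ (S ×ˢ S))).filter
      (fun s => s.1 - s.2.1 + s.2.2.1 - s.2.2.2 = d)).card ≤ S.card ^ 4 := by
    rw [Finset.sum_card_fiberwise_eq_card_filter]
    refine (Finset.card_filter_le _ _).trans (le_of_eq ?_)
    rw [Finset.card_product, Finset.card_product, Finset.card_product]
    ring
  calc (D.card : ℝ) * c = ∑ _d ∈ D, c := by rw [Finset.sum_const, nsmul_eq_mul]
    _ ≤ ∑ d ∈ D, (((S ×ˢ (S ×ˢ (S ×ˢ S))).filter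
      (fun s => s.1 - s.2.1 + s.2.2.1 - s.2.2.2 = d)).card : ℝ) := Finset.sum_le_sum h
    _ ≤ (S.card : ℝ) ^ 4 := by exact_mod_cast h1

/-- the paths of length four give representations -/
theorem paths_le {α : Type} [DecidableEq α] [AddCommGroup α] (P S : Finset α) (a a' : α) :
    ((P ×ˢ (P ×ˢ P)).filter (fun p =>
      (a, p.2.1) ∈ (P ×ˢ P).filter (fun p => p.1 + p.2 ∈ S) ∧
      (p.1, p.2.1) ∈ (P ×ˢ P).filter (fun p => p.1 + p.2 ∈ S) ∧
      (p.1, p.2.2) ∈ (P ×ˢ P).filter (fun p => p.1 + p.2 ∈ S) ∧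
      (a', p.2.2) ∈ (P ×ˢ P).filter (fun p => p.1 + p.2 ∈ S))).card ≤
    ((S ×ˢ (S ×ˢ (S ×ˢ S))).filter
      (fun s => s.1 - s.2.1 + s.2.2.1 - s.2.2.2 = a - a')).card := by
  refine Finset.card_le_card_of_injOn
    (fun p => (a + p.2.1, (p.1 + p.2.1, (p.1 + p.2.2, a' + p.2.2)))) ?_ ?_
  · intro p hp
    have hp' := Finset.mem_coe.1 hp
    rw [Finset.mem_filter] at hp'
    obtain ⟨-, h1, h2, h3, h4⟩ := hp'
    refine Finset.mem_coe.2 (Finset.mem_filter.2 ⟨?_, ?_⟩)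
    · refine Finset.mem_product.2 ⟨(Finset.mem_filter.1 h1).2, Finset.mem_product.2
        ⟨(Finset.mem_filter.1 h2).2, Finset.mem_product.2
          ⟨(Finset.mem_filter.1 h3).2, (Finset.mem_filter.1 h4).2⟩⟩⟩
    · show a + p.2.1 - (p.1 + p.2.1) + (p.1 + p.2.2) - (a' + p.2.2) = a - a'
      abel
  · intro p _ q _ hpq
    have hpq' : (a + p.2.1, (p.1 + p.2.1, (p.1 + p.2.2, a' + p.2.2))) =
        (a + q.2.1, (q.1 + q.2.1, (q.1 + q.2.2, a' + q.2.2))) := hpq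
    rw [Prod.mk.injEq, Prod.mk.injEq, Prod.mk.injEq] at hpq'
    obtain ⟨h1, h2, -, h4⟩ := hpq'
    have e1 := add_left_cancel h1
    have e4 := add_left_cancel h4
    rw [e1] at h2
    have e2 := add_right_cancel h2
    exact Prod.ext e2 (Prod.ext e1 e4)

/-- **Row BSG** -/
theorem bsg (hB : BgrStmt) (hP : PopStmt) : BsgStmt := by
  intro α _ _ P K hne hK hE
  obtain ⟨S, hS, hR⟩ := hP α P K hne hK hE
  obtain ⟨P', hP', hcard, hpath⟩ := hB α P ((P ×ˢ P).filter (fun p => p.1 + p.2 ∈ S)) (2 * K) hne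
    (by linarith) (Finset.filter_subset _ _) hR
  have hK0 : 0 < K := by linarith
  have hn0 : (0 : ℝ) < P.card := by exact_mod_cast Finset.card_pos.2 hne
  have hcard' : (P.card : ℝ) ≤ 8 * K * P'.card := by
    refine hcard.trans (le_of_eq ?_)
    ring
  have hP'0 : (0 : ℝ) < P'.card := by
    by_contra h
    have h0 : (P'.card : ℝ) = 0 := le_antisymm (not_lt.1 h) (Nat.cast_nonneg _)
    rw [h0] at hcard'
    linarith
  have hP'ne : P'.Nonempty := Finset.card_pos.1 (by exact_mod_cast hP'0)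
  refine ⟨P', hP', hcard', ?_⟩
  -- the difference set
  have hD : ((P' - P').card : ℝ) * ((P.card : ℝ) ^ 3 / (2 ^ 17 * K ^ 5)) ≤ (S.card : ℝ) ^ 4 := by
    refine card_diff_le S (P' - P') _ ?_
    intro d hd
    obtain ⟨a, ha, a', ha', rfl⟩ := Finset.mem_sub.1 hd
    have h1 := hpath a ha a' ha'
    have h2 : ((((P ×ˢ (P ×ˢ P)).filter (fun p =>
      (a, p.2.1) ∈ (P ×ˢ P).filter (fun p => p.1 + p.2 ∈ S) ∧
      (p.1, p.2.1) ∈ (P ×ˢ P).filter (fun p => p.1 + p.2 ∈ S) ∧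
      (p.1, p.2.2) ∈ (P ×ˢ P).filter (fun p => p.1 + p.2 ∈ S) ∧
      (a', p.2.2) ∈ (P ×ˢ P).filter (fun p => p.1 + p.2 ∈ S))).card : ℕ) : ℝ) ≤
      (((S ×ˢ (S ×ˢ (S ×ˢ S))).filter
        (fun s => s.1 - s.2.1 + s.2.2.1 - s.2.2.2 = a - a')).card : ℝ) := by
      exact_mod_cast paths_le P S a a'
    rw [div_le_iff₀ (by positivity)]
    refine h1.trans ?_
    have h3 : (4096 : ℝ) * (2 * K) ^ 5 = 2 ^ 17 * K ^ 5 := by ring
    rw [h3, mul_comm]
    exact mul_le_mul_of_nonneg_right h2 (by positivity)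
  have hS4 : (S.card : ℝ) ^ 4 ≤ 16 * K ^ 4 * (P.card : ℝ) ^ 4 := by
    calc (S.card : ℝ) ^ 4 ≤ (2 * K * P.card) ^ 4 := pow_le_pow_left₀ (by positivity) hS 4
      _ = 16 * K ^ 4 * (P.card : ℝ) ^ 4 := by ring
  have hD2 : ((P' - P').card : ℝ) ≤ 2 ^ 24 * K ^ 10 * P'.card := by
    have h1 : ((P' - P').card : ℝ) ≤ 2 ^ 21 * K ^ 9 * P.card := by
      have h2 : ((P' - P').card : ℝ) * ((P.card : ℝ) ^ 3 / (2 ^ 17 * K ^ 5)) ≤
          2 ^ 21 * K ^ 9 * P.card * ((P.card : ℝ) ^ 3 / (2 ^ 17 * K ^ 5)) := by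
        refine (hD.trans hS4).trans (le_of_eq ?_)
        field_simp
        ring
      exact le_of_mul_le_mul_right h2 (by positivity)
    calc ((P' - P').card : ℝ) ≤ 2 ^ 21 * K ^ 9 * P.card := h1
      _ ≤ 2 ^ 21 * K ^ 9 * (8 * K * P'.card) := mul_le_mul_of_nonneg_left hcard' (by positivity)
      _ = 2 ^ 24 * K ^ 10 * P'.card := by ring
  -- Pluennecke
  have hpl := Finset.pluennecke_ruzsa_inequality_nsmul_sub_nsmul_sub hP'ne P' 2 0
  rw [two_nsmul, zero_nsmul, sub_zero, add_zero] at hpl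
  have hpl2 : ((P' + P').card : ℝ) ≤ (((P' - P').card : ℝ) / P'.card) ^ 2 * P'.card := by
    have h6 := (NNRat.cast_le (K := ℝ)).2 hpl
    push_cast at h6
    exact h6
  refine hpl2.trans (mul_le_mul_of_nonneg_right ?_ hP'0.le)
  have h5 : ((P' - P').card : ℝ) / P'.card ≤ 2 ^ 24 * K ^ 10 := by
    rw [div_le_iff₀ hP'0]
    exact hD2
  calc (((P' - P').card : ℝ) / P'.card) ^ 2 ≤ (2 ^ 24 * K ^ 10) ^ 2 :=
        pow_le_pow_left₀ (by positivity) h5 2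
    _ = 2 ^ 48 * K ^ 20 := by ring

end Pool.Agent.PLG.H92
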