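import Pool.Agent.PLG.Stmts

/-!
# Row PRP of squad PLG: the number of the orthogonal pairs
-/

set_option autoImplicit false

namespace Pool.Agent.PLG.H92

open Finset

/-- Cauchy-Schwarz for the pairs `s`, `σ s` -/
theorem sum_pairs (T : Finset ℝ) (m : ℝ → ℕ) (σ : ℝ → ℝ) (T' : Finset ℝ) (hT' : T' ⊆ T)
    (hσ : Set.InjOn σ T') (hm : ∀ t, t ∉ T → m t = 0) :
    ∑ s ∈ T', m s * m (σ s) ≤ ∑ s ∈ T, m s ^ 2 := by
  classical
  have h1 : 2 * ∑ s ∈ T', m s * m (σ s) ≤ ∑ s ∈ T', m s ^ 2 + ∑ s ∈ T', m (σ s) ^ 2 := by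
    rw [Finset.mul_sum, ← Finset.sum_add_distrib]
    refine Finset.sum_le_sum fun s _ => ?_
    have h := two_mul_le_add_sq (m s) (m (σ s))
    rw [← mul_assoc]
    exact h
  have h2 : ∑ s ∈ T', m s ^ 2 ≤ ∑ s ∈ T, m s ^ 2 :=
    Finset.sum_le_sum_of_subset hT'
  have h3 : ∑ s ∈ T', m (σ s) ^ 2 ≤ ∑ s ∈ T, m s ^ 2 := by
    rw [← Finset.sum_image (f := fun t => m t ^ 2) (g := σ) (fun x hx y hy h => hσ hx hy h)]
    calc ∑ t ∈ T'.image σ, m t ^ 2 = ∑ t ∈ (T'.image σ).filter (fun t => t ∈ T), m t ^ 2 := by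
          symm
          refine Finset.sum_subset (Finset.filter_subset _ _) fun t ht htn => ?_
          have : t ∉ T := fun h => htn (Finset.mem_filter.2 ⟨ht, h⟩)
          rw [hm t this]
          norm_num
      _ ≤ ∑ t ∈ T, m t ^ 2 :=
          Finset.sum_le_sum_of_subset fun t ht => (Finset.mem_filter.1 ht).2
  omega

/-- **Row PRP** -/
theorem prp : PrpStmt := by
  classical
  intro E _ _ f G hD hre
  obtain ⟨Bl, hBl⟩ : ∃ Bl, Bl = bl f G 4 := ⟨_, rfl⟩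
  obtain ⟨T, hT⟩ : ∃ T, T = ((bl f G 4).filter (fun u => u ≠ 0)).image (fun u => u.im / u.re) :=
    ⟨_, rfl⟩
  rw [← hT, ← hBl]
  have hcnt : cnt f G 4 = Bl.card := by
    rw [hBl]
    rfl
  have hre' : ∀ u ∈ Bl, u ≠ 0 → u.re ≠ 0 := by
    intro u hu h0 h1
    rw [hBl] at hu
    exact h0 (hre u hu h1)
  obtain ⟨As, hAs⟩ : ∃ As : ℝ → Finset ℂ, ∀ s u, u ∈ As s ↔ u ∈ Bl ∧ u ≠ 0 ∧ u.im / u.re = s :=
    ⟨fun s => Bl.filter (fun u => u ≠ 0 ∧ u.im / u.re = s), fun s u => by rw [Finset.mem_filter]⟩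
  have hAcnt : ∀ s, (As s).card ≤ cnt f (lp G s) 4 := by
    intro s
    refine Finset.card_le_card fun u hu => ?_
    obtain ⟨h1, h2, h3⟩ := (hAs s u).1 hu
    have h4 := hre' u h1 h2
    rw [hBl, mem_bl hD] at h1
    rw [mem_bl (hD.lp s)]
    refine ⟨⟨h1.1, ?_⟩, h1.2⟩
    show u.im = s * u.re
    rw [← h3]
    field_simp
  have hA0 : ∀ t, t ∉ T → (As t).card = 0 := by
    intro t ht
    rw [Finset.card_eq_zero, Finset.eq_empty_iff_forall_notMem]
    intro u hu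
    obtain ⟨h1, h2, h3⟩ := (hAs t u).1 hu
    apply ht
    rw [hT, ← hBl]
    exact Finset.mem_image.2 ⟨u, Finset.mem_filter.2 ⟨h1, h2⟩, h3⟩
  obtain ⟨S', hS'⟩ : ∃ S' : Finset (ℂ × ℂ), ∀ p, p ∈ S' ↔ (p.1 ∈ Bl ∧ p.2 ∈ Bl) ∧
      p.1.re * p.2.re + p.1.im * p.2.im = 0 ∧ p.1 ≠ 0 ∧ p.2 ≠ 0 :=
    ⟨(Bl ×ˢ Bl).filter (fun p => p.1.re * p.2.re + p.1.im * p.2.im = 0 ∧ p.1 ≠ 0 ∧ p.2 ≠ 0),
      fun p => by rw [Finset.mem_filter, Finset.mem_product]⟩
  have hsplit : ((Bl ×ˢ Bl).filter (fun p => p.1.re * p.2.re + p.1.im * p.2.im = 0)).card ≤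
      2 * Bl.card + S'.card := by
    have hsub : (Bl ×ˢ Bl).filter (fun p => p.1.re * p.2.re + p.1.im * p.2.im = 0) ⊆
        (Bl.image (fun v => ((0 : ℂ), v)) ∪ Bl.image (fun u => (u, (0 : ℂ)))) ∪ S' := by
      intro p hp
      rw [Finset.mem_filter, Finset.mem_product] at hp
      rw [Finset.mem_union, Finset.mem_union]
      by_cases h1 : p.1 = 0
      · exact Or.inl (Or.inl (Finset.mem_image.2 ⟨p.2, hp.1.2, Prod.ext h1.symm rfl⟩))
      · by_cases h2 : p.2 = 0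
        · exact Or.inl (Or.inr (Finset.mem_image.2 ⟨p.1, hp.1.1, Prod.ext rfl h2.symm⟩))
        · exact Or.inr ((hS' p).2 ⟨hp.1, hp.2, h1, h2⟩)
    calc ((Bl ×ˢ Bl).filter (fun p => p.1.re * p.2.re + p.1.im * p.2.im = 0)).card
        ≤ ((Bl.image (fun v => ((0 : ℂ), v)) ∪ Bl.image (fun u => (u, (0 : ℂ)))) ∪ S').card :=
          Finset.card_le_card hsub
      _ ≤ (Bl.image (fun v => ((0 : ℂ), v)) ∪ Bl.image (fun u => (u, (0 : ℂ)))).card + S'.card :=
          Finset.card_union_le _ _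
      _ ≤ ((Bl.image (fun v => ((0 : ℂ), v))).card + (Bl.image (fun u => (u, (0 : ℂ)))).card) +
          S'.card := Nat.add_le_add_right (Finset.card_union_le _ _) _
      _ ≤ (Bl.card + Bl.card) + S'.card :=
          Nat.add_le_add_right (Nat.add_le_add Finset.card_image_le Finset.card_image_le) _
      _ = 2 * Bl.card + S'.card := by ring
  have hmaps : ∀ p ∈ S', p.1.im / p.1.re ∈ T := by
    intro p hp
    obtain ⟨h1, -, h2, -⟩ := (hS' p).1 hp
    rw [hT, ← hBl]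
    exact Finset.mem_image.2 ⟨p.1, Finset.mem_filter.2 ⟨h1.1, h2⟩, rfl⟩
  have hfib : S'.card = ∑ s ∈ T, (S'.filter (fun p => p.1.im / p.1.re = s)).card :=
    Finset.card_eq_sum_card_fiberwise hmaps
  have hzero : ∀ p ∈ S', p.1.im / p.1.re ≠ 0 ∧ p.2.im / p.2.re = -1 / (p.1.im / p.1.re) := by
    intro p hp
    obtain ⟨h1, h2, h3, h4⟩ := (hS' p).1 hp
    have h5 := hre' p.1 h1.1 h3
    have h6 := hre' p.2 h1.2 h4
    have h7 : p.1.im ≠ 0 := by
      intro h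
      rw [h, zero_mul, add_zero] at h2
      rcases mul_eq_zero.1 h2 with h | h
      · exact h5 h
      · exact h6 h
    refine ⟨div_ne_zero h7 h5, ?_⟩
    field_simp
    linarith
  have hfibc : ∀ s ∈ T, (S'.filter (fun p => p.1.im / p.1.re = s)).card ≤
      if s = 0 then 0 else (As s).card * (As (-1 / s)).card := by
    intro s _
    by_cases hs : s = 0
    · rw [if_pos hs]
      refine le_of_eq (Finset.card_eq_zero.2 (Finset.eq_empty_iff_forall_notMem.2 fun p hp => ?_))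
      obtain ⟨h1, h2⟩ := Finset.mem_filter.1 hp
      exact (hzero p h1).1 (h2.trans hs)
    · rw [if_neg hs, ← Finset.card_product]
      refine Finset.card_le_card fun p hp => ?_
      obtain ⟨h1, h2⟩ := Finset.mem_filter.1 hp
      obtain ⟨h3, -, h4, h5⟩ := (hS' p).1 h1
      have h6 := (hzero p h1).2
      rw [h2] at h6
      exact Finset.mem_product.2 ⟨(hAs s p.1).2 ⟨h3.1, h4, h2⟩, (hAs _ p.2).2 ⟨h3.2, h5, h6⟩⟩
  have hSum : S'.card ≤ ∑ s ∈ T, (cnt f (lp G s) 4) ^ 2 := by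
    rw [hfib]
    calc ∑ s ∈ T, (S'.filter (fun p => p.1.im / p.1.re = s)).card
        ≤ ∑ s ∈ T, (if s = 0 then 0 else (As s).card * (As (-1 / s)).card) :=
          Finset.sum_le_sum hfibc
      _ = ∑ s ∈ T.filter (fun s => ¬ s = 0), (As s).card * (As (-1 / s)).card := by
          rw [Finset.sum_filter]
          refine Finset.sum_congr rfl fun s _ => ?_
          by_cases hs : s = 0
          · rw [if_pos hs, if_neg (not_not.2 hs)]
          · rw [if_neg hs, if_pos hs]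
      _ ≤ ∑ s ∈ T, (As s).card ^ 2 := by
          refine sum_pairs T (fun s => (As s).card) (fun s => -1 / s) _
            (Finset.filter_subset _ _) ?_ hA0
          intro x hx y hy hxy
          have hx0 : x ≠ 0 := (Finset.mem_filter.1 hx).2
          have hy0 : y ≠ 0 := (Finset.mem_filter.1 hy).2
          have h1 : -1 / x = -1 / y := hxy
          field_simp at h1
          linarith
      _ ≤ ∑ s ∈ T, (cnt f (lp G s) 4) ^ 2 :=
          Finset.sum_le_sum fun s _ => Nat.pow_le_pow_left (hAcnt s) 2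
  rw [hcnt]
  exact hsplit.trans (Nat.add_le_add_left hSum _)

end Pool.Agent.PLG.H92
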